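import Pool.Agent.Helper97.Speed.LawDefs
import Pool.Agent.Helper46.Speed.BadSum

/-! # Task V1 of MP_f07f0f_pr: the law of the isoperimetric threshold -/

namespace Pool.Agent.Helper97.Speed

open MeasureTheory Filter Topology ENNReal PMap

/-- An exponential tail gives a finite second moment. -/
lemma moment_of_tail {Ω : Type*} [MeasurableSpace Ω] (P : Measure Ω) [IsProbabilityMeasure P]
    (f : Ω → ℕ) (hf : Measurable f) (C q : ℝ) (hC : 0 < C) (hq0 : 0 < q) (hq1 : q < 1)
    (h : ∀ N : ℕ, P {ω | N < f ω} ≤ ENNReal.ofReal (C * q ^ N)) :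
    ∫⁻ ω, ((f ω : ℝ≥0∞) + 1) ^ 2 ∂P < ⊤ := by
  have hsq : ∀ n : ℕ, ((n : ℝ≥0∞) + 1) ^ 2 = ∑ N ∈ Finset.range (n + 1), (2 * (N : ℝ≥0∞) + 1) := by
    intro n
    induction n with
    | zero => simp
    | succ n ih =>
      rw [Finset.sum_range_succ, ← ih]
      push_cast
      ring
  have h1 : ∀ ω, ((f ω : ℝ≥0∞) + 1) ^ 2 =
      ∑' N : ℕ, {ω | N ≤ f ω}.indicator (fun _ => 2 * (N : ℝ≥0∞) + 1) ω := by
    intro ω
    rw [hsq, tsum_eq_sum (s := Finset.range (f ω + 1))]
    · refine Finset.sum_congr rfl fun N hN => ?_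
      rw [Set.indicator_of_mem]
      exact Nat.lt_succ_iff.1 (Finset.mem_range.1 hN)
    · intro N hN
      rw [Set.indicator_of_notMem]
      intro h2
      exact hN (Finset.mem_range.2 (Nat.lt_succ_of_le h2))
  have hms : ∀ N : ℕ, MeasurableSet {ω | N ≤ f ω} := fun N =>
    measurableSet_le measurable_const hf
  have h2 : ∫⁻ ω, ((f ω : ℝ≥0∞) + 1) ^ 2 ∂P = ∑' N : ℕ, (2 * (N : ℝ≥0∞) + 1) * P {ω | N ≤ f ω} := by
    simp_rw [h1]
    rw [lintegral_tsum]
    · refine tsum_congr fun N => ?_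
      rw [lintegral_indicator (hms N), setLIntegral_const]
    · intro N
      exact (measurable_const.indicator (hms N)).aemeasurable
  rw [h2]
  have h3 : ∀ N : ℕ, (2 * (N : ℝ≥0∞) + 1) * P {ω | N ≤ f ω} ≤
      ENNReal.ofReal ((2 * N + 1) * ((1 + C / q) * q ^ N)) := by
    intro N
    rw [ENNReal.ofReal_mul (by positivity)]
    have e1 : ENNReal.ofReal (2 * (N : ℝ) + 1) = 2 * (N : ℝ≥0∞) + 1 := by
      rw [ENNReal.ofReal_add (by positivity) (by norm_num), ENNReal.ofReal_mul (by norm_num)]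
      simp
    rw [e1]
    gcongr
    cases N with
    | zero =>
      refine prob_le_one.trans ?_
      rw [← ENNReal.ofReal_one]
      apply ENNReal.ofReal_le_ofReal
      have : 0 < C / q := by positivity
      simp only [pow_zero, mul_one]
      linarith
    | succ N =>
      refine (h N).trans (ENNReal.ofReal_le_ofReal ?_)
      have : (1 + C / q) * q ^ (N + 1) = q ^ (N + 1) + C * q ^ N := by
        field_simp
        ring
      rw [this]
      have : 0 < q ^ (N + 1) := by positivity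
      linarith
  refine lt_of_le_of_lt (ENNReal.tsum_le_tsum h3) ?_
  have hsum : Summable (fun N : ℕ => (2 * (N : ℝ) + 1) * ((1 + C / q) * q ^ N)) := by
    have s1 : Summable (fun N : ℕ => ((N : ℝ) ^ 1) * q ^ N) :=
      summable_pow_mul_geometric_of_norm_lt_one 1 (by rw [Real.norm_of_nonneg hq0.le]; exact hq1)
    have s2 : Summable (fun N : ℕ => q ^ N) := summable_geometric_of_lt_one hq0.le hq1
    refine ((s1.mul_left (2 * (1 + C / q))).add (s2.mul_left (1 + C / q))).congr (fun N => ?_)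
    ring
  rw [← ENNReal.ofReal_tsum_of_nonneg (fun N => by positivity) hsum]
  exact ENNReal.ofReal_lt_top

namespace PMap

variable {m g m₂ : PMap}

/-- A region can be transferred to any map which agrees with the given one on a large region. -/
lemma Reg.transfer_loc {j : ℤ} {b n : ℕ} {T : Finset ℕ} (R : Reg m m₂ j b n T) :
    ∃ k, ∀ g, LocEq k m g → ∃ g₁ T', Reg g g₁ j b n T' ∧ T'.card = T.card := by
  classical
  obtain ⟨k, hk⟩ := exh_subset R.hp (fun d hd => (R.tri d hd).1) R.In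
  refine ⟨k, ?_⟩
  rintro g ⟨φ, S, S', I⟩
  obtain ⟨hTS, N⟩ := I.n1.of_subset R.nest (hk k le_rfl)
  obtain ⟨g₁, RG, -, -⟩ := I.restrict R hTS N
  refine ⟨g₁, T.image φ, RG, ?_⟩
  apply Finset.card_image_of_injOn
  intro d hd e he hde
  exact I.inj d (mem_X (hTS hd)) e (mem_X (hTS he)) hde

lemma Thr.mono {M N N' : ℕ} (hN : N ≤ N') (h : m.Thr M N) : m.Thr M N' := by
  intro m₂ j b n T R hj hb
  exact (h m₂ j b n T R hj hb).trans (by omega)

end PMap

lemma measurableSet_not_thr (M N : ℕ) : MeasurableSet {h : HalfPlane | ¬ h.1.Thr M N} := by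
  refine measurableSet_of_loc ?_
  intro h hh
  simp only [Set.mem_ofPred_eq, PMap.Thr] at hh
  push Not at hh
  obtain ⟨m₂, j, b, n, T, R, hj, hb, hT⟩ := hh
  obtain ⟨k, hk⟩ := R.transfer_loc
  refine ⟨k, fun g hg hthr => ?_⟩
  obtain ⟨g₁, T', R', hc⟩ := hk g.1 hg
  have := hthr g₁ j b n T' R' hj hb
  omega

lemma measurableSet_thr (M N : ℕ) : MeasurableSet {h : HalfPlane | h.1.Thr M N} := by
  have := (measurableSet_not_thr M N).compl
  convert this using 1
  ext h
  simp

lemma thr_le_iff {M N : ℕ} {m : PMap} : m.thr M ≤ N ↔ (m.Thr M N ∨ ∀ N', ¬ m.Thr M N') := by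
  constructor
  · intro h
    by_cases hex : ∃ N', m.Thr M N'
    · left
      have h1 : m.Thr M (m.thr M) := Nat.sInf_mem (s := {N | m.Thr M N}) hex
      exact h1.mono h
    · right
      push Not at hex
      exact hex
  · rintro (h | h)
    · exact Nat.sInf_le h
    · have : {N | m.Thr M N} = ∅ := by
        ext N
        simp [h N]
      unfold PMap.thr
      rw [this, Nat.sInf_empty]
      exact Nat.zero_le _

lemma measurable_thr (M : ℕ) : Measurable (fun h : HalfPlane => h.1.thr M) := by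
  refine measurable_of_Iic fun N => ?_
  have : (fun h : HalfPlane => h.1.thr M) ⁻¹' Set.Iic N =
      {h : HalfPlane | h.1.Thr M N} ∪ ⋂ N', {h : HalfPlane | ¬ h.1.Thr M N'} := by
    ext h
    simp only [Set.mem_preimage, Set.mem_Iic, Set.mem_union, Set.mem_iInter, Set.mem_ofPred_eq]
    exact thr_le_iff
  rw [this]
  exact (measurableSet_thr M N).union (MeasurableSet.iInter fun N' => measurableSet_not_thr M N')

variable {α : ℝ} {P : Measure HalfPlane}

/-- The probability that the region with a given good code is present. -/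
lemma IsHalfPlaneLaw.prob_hasC (hP : IsHalfPlaneLaw α P) {C : Cd} (hC : C.Good) :
    P (HasC C) = ENNReal.ofReal (α ^ (C.2.2.2.inn + (C.2.2.1 - 1)) *
      (α * (1 - α) / 2) ^ (C.2.2.2.faces - (C.2.2.2.inn + (C.2.2.1 - 1)))) := by
  have := hP.markov C.1 0 C.2.1 C.2.2.1 C.2.2.2 hC.1 hC.2.1 hC.2.2 Set.univ MeasurableSet.univ
  have h1 := hP.prob
  rw [measure_univ, mul_one] at this
  rw [← this]
  congr 1
  ext h
  constructor
  · rintro ⟨m', hm⟩
    obtain ⟨T, R, -⟩ := Sub.reg h.2 hm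
    exact ⟨⟨m', R.hp₂⟩, Set.mem_univ _, hm⟩
  · rintro ⟨h', -, hm⟩
    exact ⟨h'.1, hm⟩

theorem thr_law (h1 : 2 / 3 < α) (h2 : α < 1) (hP : IsHalfPlaneLaw α P) :
    ∃ (M : ℕ) (C q : ℝ), 0 < M ∧ 0 < C ∧ 0 < q ∧ q < 1 ∧
      (∀ N, MeasurableSet {h : HalfPlane | h.1.Thr M N}) ∧
      (∀ N : ℕ, P {h : HalfPlane | ¬ h.1.Thr M N} ≤ ENNReal.ofReal (C * q ^ N)) ∧
      Measurable (fun h : HalfPlane => h.1.thr M) ∧
      (∀ᵐ h ∂P, h.1.Thr M (h.1.thr M)) ∧
      ∫⁻ h : HalfPlane, ((h.1.thr M : ℝ≥0∞) + 1) ^ 2 ∂P < ⊤ := by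
  classical
  have := hP.prob
  obtain ⟨M, C, q, hM, hC, hq0, hq1, hsum⟩ := bad_sum α h1 h2
  have htail : ∀ N : ℕ, P {h : HalfPlane | ¬ h.1.Thr M N} ≤ ENNReal.ofReal (C * q ^ N) := by
    intro N
    refine le_trans ?_ (hsum N)
    let cond : ℕ × ℕ × ℕ × {Q : Disc // Q.WF} → Prop := fun t =>
      1 ≤ t.2.1 ∧ 1 ≤ t.2.2.1 ∧ t.1 < t.2.1 ∧
          t.2.2.2.1.per = t.2.1 + t.2.2.1 ∧ N + M * t.2.2.1 < 3 * t.2.2.2.1.faces
    let B : ℕ × ℕ × ℕ × {Q : Disc // Q.WF} → Set HalfPlane := fun t =>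
      if cond t then HasC (-(t.1 : ℤ), t.2.1 - 1, t.2.2.1, t.2.2.2.1) else ∅
    have hcov : {h : HalfPlane | ¬ h.1.Thr M N} ⊆ ⋃ t, B t := by
      intro h hh
      simp only [Set.mem_ofPred_eq, PMap.Thr] at hh
      push Not at hh
      obtain ⟨m₂, j, b, n, T, R, hj, hb, hT⟩ := hh
      obtain ⟨Cc, hG, hS, hc1, hc2, hc3, hc4⟩ := R.exists_subC
      have hbpos := R.posb
      have hnpos := R.posn
      have hG2 := hG.2.2
      rw [Set.mem_iUnion]
      refine ⟨((-j).toNat, b, n, ⟨Cc.2.2.2, hG.2.1⟩), ?_⟩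
      have hcond : cond ((-j).toNat, b, n, ⟨Cc.2.2.2, hG.2.1⟩) := by
        refine ⟨hbpos, hnpos, ?_, ?_, ?_⟩
        · show (-j).toNat < b
          omega
        · show Cc.2.2.2.per = b + n
          omega
        · show N + M * n < 3 * Cc.2.2.2.faces
          omega
      show h ∈ B _
      simp only [B]
      rw [if_pos hcond]
      refine ⟨m₂, ?_⟩
      have e1 : ((-(((-j).toNat : ℕ) : ℤ), b - 1, n, Cc.2.2.2) : Cd) = Cc := by
        have : (-(((-j).toNat : ℕ) : ℤ)) = j := by omega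
        rw [this, ← hc1, ← hc3, show b - 1 = Cc.2.1 by omega]
      rw [e1]
      exact hS
    refine (measure_mono hcov).trans ((measure_iUnion_le _).trans ?_)
    refine ENNReal.tsum_le_tsum fun t => ?_
    by_cases ht : cond t
    · have ht' := ht
      obtain ⟨c1, c2, c3, c4, c5⟩ := ht'
      simp only [B]
      rw [if_pos ht, if_pos ht]
      have hG : Cd.Good (-(t.1 : ℤ), t.2.1 - 1, t.2.2.1, t.2.2.2.1) := by
        refine ⟨c2, t.2.2.2.2, ?_⟩
        show t.2.2.2.1.per = 0 + 1 + (t.2.1 - 1) + t.2.2.1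
        omega
      exact (hP.prob_hasC hG).le
    · simp only [B]
      rw [if_neg ht, if_neg ht, measure_empty]
  refine ⟨M, C, q, hM, hC, hq0, hq1, measurableSet_thr M, htail, measurable_thr M, ?_, ?_⟩
  · have hnull : P (⋂ N, {h : HalfPlane | ¬ h.1.Thr M N}) = 0 := by
      refine le_antisymm ?_ zero_le
      have h3 : ∀ N : ℕ, P (⋂ N, {h : HalfPlane | ¬ h.1.Thr M N}) ≤ ENNReal.ofReal (C * q ^ N) :=
        fun N => (measure_mono (Set.iInter_subset _ N)).trans (htail N)
      have h4 : Tendsto (fun N : ℕ => ENNReal.ofReal (C * q ^ N)) atTop (𝓝 0) := by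
        have h5 : Tendsto (fun N : ℕ => C * q ^ N) atTop (𝓝 (C * 0)) :=
          (tendsto_pow_atTop_nhds_zero_of_lt_one hq0.le hq1).const_mul C
        have := ENNReal.tendsto_ofReal h5
        simpa using this
      exact ge_of_tendsto' h4 h3
    have h6 : ∀ᵐ h ∂P, h ∉ ⋂ N, {h : HalfPlane | ¬ h.1.Thr M N} := by
      rw [ae_iff]
      have e : {a : HalfPlane | ¬ a ∉ ⋂ N, {h : HalfPlane | ¬ h.1.Thr M N}} =
          ⋂ N, {h : HalfPlane | ¬ h.1.Thr M N} := by
        ext a
        exact not_not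
      rw [e]
      exact hnull
    filter_upwards [h6] with h hh
    simp only [Set.mem_iInter, Set.mem_ofPred_eq, not_forall, not_not] at hh
    exact Nat.sInf_mem (s := {N | h.1.Thr M N}) hh
  · refine moment_of_tail P (fun h => h.1.thr M) (measurable_thr M) C q hC hq0 hq1 ?_
    intro N
    refine (measure_mono ?_).trans (htail N)
    intro h hh hthr
    have : h.1.thr M ≤ N := Nat.sInf_le hthr
    have hh' : N < h.1.thr M := hh
    omega

end Pool.Agent.Helper97.Speed
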