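import Pool.Agent.Helper97.Speed.Markov
import Pool.Agent.Helper95.Speed.ThrLaw

/-! # Task V2 of MP_f07f0f_pr: second moment of the hull of the root vertex -/

namespace Pool.Agent.Helper97.Speed

open MeasureTheory Filter Topology ENNReal PMap


namespace PMap

variable {m g m₁ m₂ g₂ : PMap}

/-! ### the size of the hull -/

lemma Nest.hs_eq {T : Finset ℕ} (N : Nest m (m.explore 0) T) : m.hs = T.card := by
  have h1 : m.In \ (m.explore 0).In = (T : Set ℕ) := by
    rw [N.In]
    ext d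
    simp only [Set.mem_sdiff, not_and, not_not]
    constructor
    · rintro ⟨h1, h2⟩; exact h2 h1
    · intro hd; exact ⟨(N.tri d hd).1, fun _ => hd⟩
  rw [hs, h1, Set.ncard_coe_finset]

lemma hs_loc (h : LocEq 0 m g) : g.hs = m.hs := by
  classical
  obtain ⟨φ, T, T', I⟩ := h
  have e1 : m.hs = T.card := Nest.hs_eq I.n1
  have e2 : g.hs = T'.card := Nest.hs_eq I.n2
  rw [e1, e2, I.image_eq]
  apply Finset.card_image_of_injOn
  intro d hd e he hde
  exact I.inj d (mem_X hd) e (mem_X he) hde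

/-! ### consecutive non-left peels -/

/-- the first `s` peels at the root edge are not left peels -/
def Surv : ℕ → PMap → Prop
  | 0, _ => True
  | s + 1, m => (m.peel 0).V 0 = m.V 0 ∧ Surv s (m.peel 0)

lemma Surv.of_succ : ∀ {s : ℕ} {m : PMap}, Surv (s + 1) m → Surv s m := by
  intro s
  induction s with
  | zero => intro m _; trivial
  | succ s ih => intro m h; exact ⟨h.1, ih h.2⟩

/-- iterated peeling -/
noncomputable def peelN : ℕ → PMap → PMap
  | 0, m => m
  | s + 1, m => peelN s (m.peel 0)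

lemma peelN_nest (s : ℕ) : ∀ {m : PMap}, m.IsHalfPlane → ∃ S, Nest m (peelN s m) S := by
  induction s with
  | zero => intro m h; exact ⟨∅, Nest.refl h⟩
  | succ s ih =>
    intro m h
    obtain ⟨j, b, n, T, P⟩ := peel_spec h 0
    obtain ⟨S, hS⟩ := ih P.reg.hp₂
    exact ⟨_, P.reg.nest.trans hS⟩

lemma RIso.surv {φ : ℕ → ℕ} : ∀ (s : ℕ) {m g : PMap} {T T' : Finset ℕ},
    RIso φ m m₂ g g₂ T T' → m₂.In ⊆ (peelN s m).In → (Surv s m ↔ Surv s g) := by
  intro s
  induction s with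
  | zero => intro m g T T' _ _; exact Iff.rfl
  | succ s ih =>
    intro m g T T' I hsub
    obtain ⟨j, b, n, S, P⟩ := peel_spec I.n1.hp 0
    obtain ⟨S', hS'⟩ := peelN_nest s P.reg.hp₂
    obtain ⟨P', -, I2⟩ := peel_transfer I P (hsub.trans hS'.subset)
    have h1 := P.V_eq_iff
    have h2 := P'.V_eq_iff
    have h3 := ih I2 hsub
    show (_ ∧ _) ↔ (_ ∧ _)
    rw [h1, h2, h3]

lemma surv_loc (h : m.IsHalfPlane) (s : ℕ) : ∃ k, ∀ g, LocEq k m g → (Surv s m ↔ Surv s g) := by
  obtain ⟨S, N⟩ := peelN_nest s h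
  obtain ⟨k, hk⟩ := exh_subset h (fun d hd => (N.tri d hd).1) N.In
  refine ⟨k, ?_⟩
  rintro g ⟨φ, T, T', I⟩
  exact I.surv s (hk k le_rfl)

/-- If one of the first `s` peels is a left peel then the hull has at most `s` outer edges. -/
lemma explore_of_not_surv (s : ℕ) : ∀ {m m₁ : PMap} {b n : ℕ} {T : Finset ℕ},
    Reg m m₁ 0 b n T → ¬ Surv s m₁ →
    ∃ j b' n' T', Reg m (m₁.explore 0) j b' n' T' ∧ j < 0 ∧ 0 < j + b' ∧ n' + 1 ≤ n + s := by
  induction s with
  | zero => intro m m₁ b n T R h; exact absurd trivial h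
  | succ s ih =>
    intro m m₁ b n T R h
    obtain ⟨j', b', n', T', P⟩ := peel_spec R.hp₂ 0
    have R' := P.reg
    have hn := R.posn
    have hb := R.posb
    have hn' := R'.posn
    have hb' := R'.posb
    have hle := P.le
    have hlt := P.lt
    have RR := R.comp R' (by omega) (by omega)
    rw [explore_step R.hp₂ 0]
    by_cases hV : (m₁.peel 0).V 0 = m₁.V 0
    · rw [if_pos hV]
      have hj' : j' = 0 := P.V_eq_iff.1 hV
      subst hj'
      rw [min_self] at RR
      have hs : ¬ Surv s (m₁.peel 0) := fun h1 => h ⟨hV, h1⟩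
      obtain ⟨j₂, b₂, n₂, T₂, R₂, hj₂, hb₂, hn₂⟩ := ih RR hs
      refine ⟨j₂, b₂, n₂, T₂, R₂, hj₂, hb₂, ?_⟩
      rcases P.cases with ⟨-, c1, c2, -⟩ | ⟨-, c1, c2, -⟩ | ⟨c1, -⟩
      · omega
      · omega
      · omega
    · rw [if_neg hV]
      have hj' : j' ≠ 0 := fun h1 => hV (P.V_eq_iff.2 h1)
      refine ⟨_, _, _, _, RR, by omega, by omega, ?_⟩
      rcases P.cases with ⟨c1, -⟩ | ⟨c1, -⟩ | ⟨c1, c2, c3, -⟩
      · omega
      · omega
      · omega

lemma hs_le_of_not_surv (h : m.IsHalfPlane) {M N s : ℕ} (ht : m.Thr M N) (hs : ¬ Surv s m) :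
    m.hs ≤ N + M * s := by
  obtain ⟨j, b, n, T, R, hj, hb, hn⟩ := explore_of_not_surv s (Reg.refl h 0) hs
  rw [Nest.hs_eq R.nest]
  refine (ht _ _ _ _ _ R hj hb).trans ?_
  have : n ≤ s := by omega
  gcongr

/-! ### the event of a left peel with a single triangle -/

lemma left_of_sub (h : m.IsHalfPlane)
    (hS : m.SubC (-1, 1, 1, Disc.split Disc.edge Disc.edge) m₂) : (m.peel 0).V 0 ≠ m.V 0 := by
  obtain ⟨p, S, ch, hp, hF, -⟩ := hS
  obtain ⟨e, rfl⟩ := List.length_eq_one_iff.1 hp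
  obtain ⟨d, t₁, t₂, hc, hd, ⟨x, hx⟩, ⟨y, hy⟩⟩ := hF
  simp only [List.cons.injEq] at hx hy
  obtain ⟨hx1, hx2⟩ := hx
  obtain ⟨hy1, hy2⟩ := hy
  subst hx1 hy1
  rw [h.rev_rev] at hx2 hy2
  subst hx2 hy2
  simp only [cyc, List.range_succ, List.range_zero, List.nil_append, List.cons_append,
    List.map_cons, List.map_nil, List.reverse_cons, List.reverse_nil, List.rotate_zero,
    List.cons.injEq, and_true] at hc
  norm_num at hc
  obtain ⟨hc1, hc2, hc3⟩ := hc
  subst hc1
  have hthd : m.thd 0 = m.V (-1) := by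
    rw [thd, hc2, h.nxt_nxt_nxt _ hd, V]
  obtain ⟨j, b, n, T, P⟩ := peel_spec h 0
  intro hV
  have hj : j = 0 := P.V_eq_iff.1 hV
  rcases P.cases with ⟨-, -, -, c4, -⟩ | ⟨c1, c2, c3, c4, -⟩ | ⟨c1, -⟩
  · exact c4 (-1) hthd.symm
  · rw [hthd] at c4
    have := h.pre.V_inj c4
    omega
  · omega

end PMap

/-! ### probabilities -/

variable {α : ℝ} {P : Measure HalfPlane}

lemma measurable_hs : Measurable (fun h : HalfPlane => h.1.hs) :=
  measurable_of_loc fun _ => ⟨0, fun _ hg => hs_loc hg⟩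

lemma measurableSet_surv (s : ℕ) : MeasurableSet {h : HalfPlane | Surv s h.1} := by
  refine measurableSet_of_loc ?_
  intro h hh
  obtain ⟨k, hk⟩ := surv_loc h.2 s
  exact ⟨k, fun g hg => (hk g.1 hg).1 hh⟩

lemma prob_surv_one (h1 : 0 < α) (h2 : α < 1) (hP : IsHalfPlaneLaw α P) :
    P {h : HalfPlane | Surv 1 h.1} ≤ ENNReal.ofReal (1 - α * (1 - α) / 2) := by
  have := hP.prob
  have hG : Cd.Good (-1, 1, 1, Disc.split Disc.edge Disc.edge) :=
    ⟨by norm_num, ⟨trivial, trivial⟩, rfl⟩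
  have hp := hP.prob_hasC hG
  simp only [Disc.inn, Disc.faces, Nat.sub_self, add_zero, pow_zero, one_mul, zero_add,
    Nat.sub_zero, pow_one] at hp
  have hsub : {h : HalfPlane | Surv 1 h.1} ⊆
      (HasC (-1, 1, 1, Disc.split Disc.edge Disc.edge))ᶜ := by
    rintro h ⟨hh, -⟩ ⟨m', hm⟩
    exact left_of_sub h.2 hm hh
  refine (measure_mono hsub).trans ?_
  rw [prob_compl_eq_one_sub (measurableSet_hasC _), hp, ← ENNReal.ofReal_one,
    ← ENNReal.ofReal_sub _ (by nlinarith)]

lemma prob_surv (h1 : 0 < α) (h2 : α < 1) (hP : IsHalfPlaneLaw α P) (s : ℕ) :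
    P {h : HalfPlane | Surv s h.1} ≤ ENNReal.ofReal ((1 - α * (1 - α) / 2) ^ s) := by
  classical
  have hprob := hP.prob
  induction s with
  | zero => simpa using prob_le_one
  | succ s ih =>
    have hS := stopping_peel 0
    have hm := static_markov hP hS
      (φ := fun h => {h : HalfPlane | Surv 1 h.1}.indicator 1 h)
      (fun h g hhg => by
        obtain ⟨φ, T, T', I⟩ := hhg
        have h3 : Surv 1 h.1 ↔ Surv 1 g.1 := by
          have := I.VV 0 0
          constructor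
          · rintro ⟨h4, -⟩; exact ⟨(this.1 h4.symm).symm, trivial⟩
          · rintro ⟨h4, -⟩; exact ⟨(this.2 h4.symm).symm, trivial⟩
        simp only [Set.indicator_apply, Set.mem_ofPred_eq, h3, Pi.one_apply])
      (ι := fun _ => 0) (fun _ _ _ => rfl)
      (f := {h : HalfPlane | Surv s h.1}.indicator 1)
      (measurable_one.indicator (measurableSet_surv s))
    have e1 : ∀ h : HalfPlane, {h : HalfPlane | Surv 1 h.1}.indicator (1 : HalfPlane → ℝ≥0∞) h *
        {h : HalfPlane | Surv s h.1}.indicator (1 : HalfPlane → ℝ≥0∞)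
          ((hS.toH h).shift 0) = {h : HalfPlane | Surv (s + 1) h.1}.indicator 1 h := by
      intro h
      rw [HalfPlane.shift_zero]
      have e2 : h ∈ {h : HalfPlane | Surv (s + 1) h.1} ↔
          h ∈ {h : HalfPlane | Surv 1 h.1} ∧ hS.toH h ∈ {h : HalfPlane | Surv s h.1} := by
        constructor
        · rintro ⟨h3, h4⟩; exact ⟨⟨h3, trivial⟩, h4⟩
        · rintro ⟨⟨h3, -⟩, h4⟩; exact ⟨h3, h4⟩
      simp only [Set.indicator_apply, e2]
      by_cases c1 : h ∈ {h : HalfPlane | Surv 1 h.1} <;>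
        by_cases c2 : hS.toH h ∈ {h : HalfPlane | Surv s h.1} <;> simp [c1, c2]
    simp only [e1] at hm
    rw [lintegral_indicator_one (measurableSet_surv (s + 1)),
      lintegral_indicator_one (measurableSet_surv 1),
      lintegral_indicator_one (measurableSet_surv s)] at hm
    rw [hm, pow_succ', ENNReal.ofReal_mul (by nlinarith)]
    exact mul_le_mul' (prob_surv_one h1 h2 hP) ih

/-- number of peels until the first left peel -/
noncomputable def fstLeft (m : PMap) : ℕ := sInf {s | ¬ Surv s m}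

lemma fstLeft_le_iff {s : ℕ} {m : PMap} :
    fstLeft m ≤ s ↔ (¬ Surv s m ∨ ∀ s', Surv s' m) := by
  have hmono : ∀ {s s' : ℕ}, s ≤ s' → Surv s' m → Surv s m := by
    intro s s' hs h
    induction s', hs using Nat.le_induction with
    | base => exact h
    | succ s' _ ih => exact ih h.of_succ
  constructor
  · intro h
    by_cases hex : ∃ s', ¬ Surv s' m
    · left
      have h1 : ¬ Surv (fstLeft m) m := Nat.sInf_mem (s := {s | ¬ Surv s m}) hex
      exact fun h2 => h1 (hmono h h2)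
    · right
      push Not at hex
      exact hex
  · rintro (h | h)
    · exact Nat.sInf_le h
    · have : {s | ¬ Surv s m} = ∅ := by
        ext s
        simp [h s]
      unfold fstLeft
      rw [this, Nat.sInf_empty]
      exact Nat.zero_le _

lemma measurable_fstLeft : Measurable (fun h : HalfPlane => fstLeft h.1) := by
  refine measurable_of_Iic fun s => ?_
  have : (fun h : HalfPlane => fstLeft h.1) ⁻¹' Set.Iic s =
      {h : HalfPlane | Surv s h.1}ᶜ ∪ ⋂ s', {h : HalfPlane | Surv s' h.1} := by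
    ext h
    simp only [Set.mem_preimage, Set.mem_Iic, Set.mem_union, Set.mem_iInter, Set.mem_ofPred_eq,
      Set.mem_compl_iff]
    exact fstLeft_le_iff
  rw [this]
  exact (measurableSet_surv s).compl.union (MeasurableSet.iInter fun s' => measurableSet_surv s')

theorem hull_moment (h1 : 2 / 3 < α) (h2 : α < 1) (hP : IsHalfPlaneLaw α P) :
    Measurable (fun h : HalfPlane => h.1.hs) ∧
      ∫⁻ h : HalfPlane, ((h.1.hs : ℝ≥0∞) + 1) ^ 2 ∂P < ⊤ := by
  have hprob := hP.prob
  refine ⟨measurable_hs, ?_⟩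
  obtain ⟨M, C, q, hM, hC, hq0, hq1, -, -, hmthr, hthr, hmom⟩ := thr_law h1 h2 hP
  set r : ℝ := 1 - α * (1 - α) / 2 with hr
  have hr0 : 0 < r := by nlinarith
  have hr1 : r < 1 := by nlinarith
  have htail : ∀ s : ℕ, P {h : HalfPlane | s < fstLeft h.1} ≤ ENNReal.ofReal (1 * r ^ s) := by
    intro s
    rw [one_mul]
    refine (measure_mono ?_).trans (prob_surv (by linarith) h2 hP s)
    intro h hh
    by_contra h3
    exact absurd (fstLeft_le_iff.2 (Or.inl h3)) (not_le.2 hh)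
  have hmt := moment_of_tail P (fun h => fstLeft h.1) measurable_fstLeft 1 r one_pos hr0 hr1 htail
  have hnull : P (⋂ s, {h : HalfPlane | Surv s h.1}) = 0 := by
    refine le_antisymm ?_ zero_le
    have h3 : ∀ s : ℕ, P (⋂ s, {h : HalfPlane | Surv s h.1}) ≤ ENNReal.ofReal (r ^ s) :=
      fun s => (measure_mono (Set.iInter_subset _ s)).trans (prob_surv (by linarith) h2 hP s)
    have h4 : Tendsto (fun s : ℕ => ENNReal.ofReal (r ^ s)) atTop (𝓝 0) := by
      have := ENNReal.tendsto_ofReal (tendsto_pow_atTop_nhds_zero_of_lt_one hr0.le hr1)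
      simpa using this
    exact ge_of_tendsto' h4 h3
  have hae : ∀ᵐ h ∂P, ∃ s, ¬ Surv s h.1 := by
    rw [ae_iff]
    have e : {a : HalfPlane | ¬ ∃ s, ¬ Surv s a.1} = ⋂ s, {h : HalfPlane | Surv s h.1} := by
      ext a
      simp
    rw [e]
    exact hnull
  have hbound : ∀ᵐ h : HalfPlane ∂P, ((h.1.hs : ℝ≥0∞) + 1) ^ 2 ≤
      2 * ((h.1.thr M : ℝ≥0∞) + 1) ^ 2 + 2 * (M : ℝ≥0∞) ^ 2 * ((fstLeft h.1 : ℝ≥0∞) + 1) ^ 2 := by
    filter_upwards [hthr, hae] with h h3 h4
    have h5 : ¬ Surv (fstLeft h.1) h.1 := Nat.sInf_mem (s := {s | ¬ Surv s h.1}) h4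
    have h6 := hs_le_of_not_surv h.2 h3 h5
    have h7 : (h.1.hs + 1) ^ 2 ≤ 2 * (h.1.thr M + 1) ^ 2 + 2 * M ^ 2 * (fstLeft h.1 + 1) ^ 2 := by
      have h8 : h.1.hs + 1 ≤ (h.1.thr M + 1) + M * (fstLeft h.1 + 1) := by nlinarith
      refine (Nat.pow_le_pow_left h8 2).trans ?_
      zify
      nlinarith [sq_nonneg (((h.1.thr M : ℤ) + 1) - M * ((fstLeft h.1 : ℤ) + 1))]
    exact_mod_cast h7
  refine lt_of_le_of_lt (lintegral_mono_ae hbound) ?_
  rw [lintegral_add_left, lintegral_const_mul, lintegral_const_mul]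
  · refine ENNReal.add_lt_top.2 ⟨ENNReal.mul_lt_top (by simp) hmom, ENNReal.mul_lt_top ?_ hmt⟩
    exact ENNReal.mul_lt_top (by simp) (by simp)
  · exact ((measurable_from_top.comp measurable_fstLeft).add_const 1).pow_const 2
  · exact ((measurable_from_top.comp hmthr).add_const 1).pow_const 2
  · exact (((measurable_from_top.comp hmthr).add_const 1).pow_const 2).const_mul 2

end Pool.Agent.Helper97.Speed
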